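import Pool.Agent.Q45.RD.Stm

set_option autoImplicit false

/-!
# Project RD, job ORTH: orthogonal vectors
-/

namespace Pool.Agent.Q164.RD.ORTH

open Finset

/-- a family of orthogonal vectors of length `k` with nonzero squares -/
def Fam {V : Type} [AddCommGroup V] [Module ℤ_[2] V] (β : V →ₗ[ℤ_[2]] V →ₗ[ℤ_[2]] ℤ_[2])
    (k : ℕ) (v : Fin k → V) : Prop :=
  (∀ i j, i ≠ j → β (v i) (v j) = 0) ∧ ∀ i, β (v i) (v i) ≠ 0

theorem fam_le {V : Type} [AddCommGroup V] [Module ℤ_[2] V] [Module.Finite ℤ_[2] V]
    (β : V →ₗ[ℤ_[2]] V →ₗ[ℤ_[2]] ℤ_[2]) {k : ℕ} {v : Fin k → V} (h : Fam β k v) :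
    k ≤ Module.finrank ℤ_[2] V := by
  have hl : LinearIndependent ℤ_[2] v := by
    rw [Fintype.linearIndependent_iff]
    intro g hg i
    have h1 : β (v i) (∑ j, g j • v j) = g i * β (v i) (v i) := by
      rw [map_sum, Finset.sum_eq_single i]
      · rw [map_smul, smul_eq_mul]
      · intro j _ hj
        rw [map_smul, h.1 i j (Ne.symm hj), smul_zero]
      · intro hi
        exact absurd (mem_univ i) hi
    rw [hg, map_zero] at h1
    exact (mul_eq_zero.1 h1.symm).resolve_right (h.2 i)
  have := hl.fintype_card_le_finrank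
  rwa [Fintype.card_fin] at this

theorem main : Pool.Agent.Q45.RD.Orth := by
  intro V _ _ _ _ β hs hn
  obtain ⟨k, ⟨v, hv⟩, hk1⟩ : ∃ k : ℕ, (∃ v : Fin k → V, Fam β k v) ∧
      ¬ ∃ v : Fin (k + 1) → V, Fam β (k + 1) v := by
    by_contra hc
    push Not at hc
    have hall : ∀ k : ℕ, ∃ v : Fin k → V, Fam β k v := by
      intro k
      induction k with
      | zero => exact ⟨fun i => i.elim0, fun i => i.elim0, fun i => i.elim0⟩
      | succ k ih => exact hc k ih
    obtain ⟨v, hv⟩ := hall (Module.finrank ℤ_[2] V + 1)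
    have := fam_le β hv
    omega
  have hD : (∏ j, β (v j) (v j)) ≠ 0 := prod_ne_zero_iff.2 fun j _ => hv.2 j
  set D := ∏ j, β (v j) (v j) with hDd
  obtain ⟨a, ha⟩ : ∃ a : V → Fin k → ℤ_[2],
      a = fun x i => (∏ j ∈ univ.erase i, β (v j) (v j)) * β (v i) x := ⟨_, rfl⟩
  have horth : ∀ x j, β (v j) (D • x - ∑ i, a x i • v i) = 0 := by
    intro x j
    rw [map_sub, map_smul, map_sum, Finset.sum_eq_single j]
    · rw [map_smul, ha, smul_eq_mul, smul_eq_mul, hDd,
        ← Finset.mul_prod_erase univ (fun j => β (v j) (v j)) (mem_univ j)]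
      ring
    · intro i _ hi
      rw [map_smul, hv.1 j i (Ne.symm hi), smul_zero]
    · intro hi
      exact absurd (mem_univ j) hi
  have sq0 : ∀ u : V, (∀ j, β (v j) u = 0) → β u u = 0 := by
    intro u hu
    by_contra h0
    refine hk1 ⟨Fin.cons u v, ?_, ?_⟩
    · intro i j hij
      induction i using Fin.cases with
      | zero =>
        induction j using Fin.cases with
        | zero => exact absurd rfl hij
        | succ j =>
          rw [Fin.cons_zero, Fin.cons_succ, hs]
          exact hu j
      | succ i =>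
        induction j using Fin.cases with
        | zero =>
          rw [Fin.cons_zero, Fin.cons_succ]
          exact hu i
        | succ j =>
          rw [Fin.cons_succ, Fin.cons_succ]
          exact hv.1 i j fun e => hij (by rw [e])
    · intro i
      induction i using Fin.cases with
      | zero => rwa [Fin.cons_zero]
      | succ i =>
        rw [Fin.cons_succ]
        exact hv.2 i
  have u0 : ∀ u : V, (∀ j, β (v j) u = 0) → u = 0 := by
    intro u hu
    apply hn u
    intro y
    set w := D • y - ∑ i, a y i • v i with hw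
    have hw0 : ∀ j, β (v j) w = 0 := horth y
    have h1 := sq0 (u + w) fun j => by rw [map_add, hu j, hw0 j, add_zero]
    have h2 := sq0 u hu
    have h3 := sq0 w hw0
    rw [map_add, map_add, LinearMap.add_apply, LinearMap.add_apply, h2, h3, hs w u] at h1
    have h4 : β u w = 0 := by
      have h5 : (2 : ℤ_[2]) * β u w = 0 := by linear_combination h1
      exact (mul_eq_zero.1 h5).resolve_left two_ne_zero
    rw [hw, map_sub, map_smul, map_sum, Finset.sum_eq_zero, sub_zero, smul_eq_mul] at h4
    · exact (mul_eq_zero.1 h4).resolve_left hD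
    · intro i _
      rw [map_smul, hs u (v i), hu i, smul_zero]
  have hspan : ∀ x : V, D • x = ∑ i, a x i • v i := fun x =>
    sub_eq_zero.1 (u0 _ (horth x))
  have hkn : Module.finrank ℤ_[2] V = k := by
    refine le_antisymm ?_ (fam_le β hv)
    have hinj : Function.Injective (LinearMap.pi fun i => β (v i) : V →ₗ[ℤ_[2]] Fin k → ℤ_[2]) := by
      rw [← LinearMap.ker_eq_bot, LinearMap.ker_eq_bot']
      intro x hx
      exact u0 x fun j => congrFun hx j
    have h1 := LinearMap.finrank_le_finrank_of_injective hinj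
    rwa [Module.finrank_pi, Fintype.card_fin] at h1
  rw [hkn]
  exact ⟨v, D, hD, hv.1, hv.2, fun x => ⟨a x, hspan x⟩⟩

end Pool.Agent.Q164.RD.ORTH
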